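import Mathlib
import Pool.Agent.W245.EB.Fam

/-!
# Logarithms and elliptic logarithms: generic combinations satisfy no relation of bounded degree

Let `w_{i1}, …, w_{iR}` (`i < k`) be systems of either `ℚ`-linearly independent logarithms of
algebraic numbers, or `k_i`-linearly independent elliptic logarithms of algebraic points of an
elliptic curve defined over the algebraic numbers (`k_i` its field of multiplications; the curve may
depend on `i`), `R = N ∏ (D_i + 1)`.  For all `m` outside a hypersurface `F = 0` of degree at most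
`R ∑ D_i` the numbers `x_i = v_i + ∑ m_{ij} w_{ij}` satisfy no nontrivial polynomial relation of
degree at most `D_i` in `x_i`, with coefficients in a given space of dimension at most `N` over the
algebraic numbers.

The proof contains a complete formalization of Baker's theorem (homogeneous form; starting module
`Pool.Agent.H297R2.BakerThm`) and of its elliptic analogue (Masser, Bertrand and Masser;
`Pool.Agent.W245.EB.Red`), by the theorem of Schneider and Lang on Cartesian products.
-/

open scoped PeriodPair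

namespace Pool.Agent.Results.MP_c9768e_nt.GenericCombinations

/-- Logarithms of algebraic numbers, linearly independent over `ℚ`. -/
def LogSystem {R : ℕ} (w : Fin R → ℂ) : Prop :=
  (∀ j, IsAlgebraic ℚ (Complex.exp (w j))) ∧ LinearIndependent ℚ w

/-- `α` belongs to the field `k = End(ℂ / Ω) ⊗ ℚ`: some multiple `m α`, `m ≥ 1`, maps the lattice
`Ω` to itself. -/
def IsMult (L : PeriodPair) (α : ℂ) : Prop :=
  ∃ m : ℕ, 0 < m ∧ ∀ ω ∈ L.lattice, (m : ℂ) * α * ω ∈ L.lattice

/-- The lattice has algebraic invariants, and the `w_j` are elliptic logarithms of algebraic points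
(`w_j` is a period or `℘(w_j)` is algebraic), linearly independent over the field `k` of the
lattice. -/
def EllipticSystem (L : PeriodPair) {R : ℕ} (w : Fin R → ℂ) : Prop :=
  IsAlgebraic ℚ L.g₂ ∧ IsAlgebraic ℚ L.g₃ ∧
    (∀ j, w j ∈ L.lattice ∨ IsAlgebraic ℚ (℘[L] (w j))) ∧
    ∀ α : Fin R → ℂ, (∀ j, IsMult L (α j)) → ∑ j, α j * w j = 0 → ∀ j, α j = 0

/-- **Main result.** -/
theorem result (N k : ℕ) (D : Fin k → ℕ) (R : ℕ) (hR : R = N * ∏ i, (D i + 1))
    (w : Fin k → Fin R → ℂ)
    (hw : ∀ i, LogSystem (w i) ∨ ∃ L : PeriodPair, EllipticSystem L (w i))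
    (W : Submodule (algebraicClosure ℚ ℂ) ℂ) (hfin : Module.Finite (algebraicClosure ℚ ℂ) W)
    (hW : Module.finrank (algebraicClosure ℚ ℂ) W ≤ N) (v : Fin k → ℂ) :
    ∃ F : MvPolynomial (Fin k × Fin R) (algebraicClosure ℚ ℂ), F ≠ 0 ∧
      F.totalDegree ≤ R * ∑ i, D i ∧
      ∀ m : Fin k → Fin R → algebraicClosure ℚ ℂ,
        MvPolynomial.eval (fun p => m p.1 p.2) F ≠ 0 →
        ∀ Q : MvPolynomial (Fin k) ℂ, (∀ i, Q.degreeOf i ≤ D i) → (∀ s, Q.coeff s ∈ W) →
          MvPolynomial.eval (fun i => v i + ∑ j, (m i j : ℂ) * w i j) Q = 0 → Q = 0 := by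
  have hind : ∀ i, LinearIndependent (algebraicClosure ℚ ℂ) (w i) := by
    intro i
    rcases hw i with h | ⟨L, h2, h3, h4, h5⟩
    · exact Pool.Agent.W245.EB.LogFam.indep ⟨h.1, h.2⟩
    · refine Pool.Agent.W245.EB.EllFam.indep h2 h3 ⟨h4, fun α hα h0 => ?_⟩
      funext j
      exact h5 α hα h0 j
  have hac : IsAlgClosed (algebraicClosure ℚ ℂ) := (algebraicClosure.isAlgClosure ℚ ℂ).isAlgClosed
  obtain ⟨F, h0, h1, h2⟩ := Pool.Agent.W245.EB.box_over N D W hfin hW (J := Fin R)
    (by rw [Fintype.card_fin, hR]) v w hind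
  refine ⟨F, h0, ?_, ?_⟩
  · exact h1.trans (le_of_eq (congrArg (fun x => x * ∑ i, D i) hR.symm))
  · intro m hm Q hQ1 hQ2 hQ3
    exact h2 m hm Q hQ1 hQ2 hQ3

end Pool.Agent.Results.MP_c9768e_nt.GenericCombinations
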